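import Mathlib

/-!
# Scalarly measurable multi-functions with bounded convex closed values and no scalarly
measurable selector

Let `Ω = [0,1]` with the Lebesgue sigma-algebra and Lebesgue measure (a complete probability space)
and let `X = C[0,1]`, a separable Banach space. For a subset `A` of `[0,1]` that is not Lebesgue
measurable put `F t = {x : ‖x‖ ≤ 1, x t = 1_A t}`. The values are nonempty, convex, norm-closed and
contained in the unit ball. For a functional `φ` on `C[0,1]` and `a < ‖φ‖` only finitely many
`F t` miss the half-space `{a < φ}`, so `F` is scalarly measurable. If `f` were a scalarly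
measurable selector, then `t ↦ (f t) t = 1_A t` would be Lebesgue measurable.
-/

open MeasureTheory Set Function

namespace Pool.Agent.Results.MP_93dabc_an.BoundedClosedConvexNoSelector

/-- A multi-function `F : Ω → 𝒫(X)` is scalarly measurable if for every open half-space
`H = {x | a < φ x}` of `X` (`φ` a nonzero continuous linear functional, `a` a real number) the set
`F⁻(H) = {t | F t ∩ H ≠ ∅}` is measurable. -/
def ScalarlyMeasurableMultiFunction {Ω X : Type*} [MeasurableSpace Ω] [NormedAddCommGroup X]
    [NormedSpace ℝ X] (F : Ω → Set X) : Prop :=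
  ∀ (φ : StrongDual ℝ X) (a : ℝ), φ ≠ 0 →
    MeasurableSet {t : Ω | (F t ∩ {x : X | a < φ x}).Nonempty}

/-- A function `f : Ω → X` is scalarly measurable if `φ ∘ f` is measurable for every continuous
linear functional `φ` on `X`. -/
def ScalarlyMeasurableFunction {Ω X : Type*} [MeasurableSpace Ω] [NormedAddCommGroup X]
    [NormedSpace ℝ X] (f : Ω → X) : Prop :=
  ∀ φ : StrongDual ℝ X, Measurable fun t : Ω => φ (f t)

/-- There is a subset of `[0,1]` which is not Lebesgue measurable (Vitali). -/
theorem exists_not_nullMeasurableSet :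
    ∃ V : Set ℝ, V ⊆ Icc 0 1 ∧ ¬ NullMeasurableSet V volume := by
  classical
  let S : Setoid ℝ :=
    { r := fun x y => ∃ q : ℚ, x - y = q
      iseqv :=
        { refl := fun x => ⟨0, by simp⟩
          symm := fun {x y} ⟨q, hq⟩ => ⟨-q, by push_cast; linarith⟩
          trans := fun {x y z} ⟨q, hq⟩ ⟨r, hr⟩ => ⟨q + r, by push_cast; linarith⟩ } }
  let f : ℝ → ℝ := fun x => Int.fract (Quotient.out (Quotient.mk S x))
  have hf1 : ∀ x, ∃ q : ℚ, x - f x = q := by
    intro x
    have h : S (Quotient.out (Quotient.mk S x)) x := Quotient.mk_out x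
    obtain ⟨q, hq⟩ := h
    refine ⟨-q + ⌊(Quotient.out (Quotient.mk S x))⌋, ?_⟩
    have := Int.fract_add_floor (Quotient.out (Quotient.mk S x))
    push_cast
    simp only [f]
    linarith
  have hf2 : ∀ x y : ℝ, (∃ q : ℚ, x - y = q) → f x = f y := by
    intro x y h
    have : Quotient.mk S x = Quotient.mk S y := Quotient.sound (s := S) h
    simp only [f, this]
  have hf3 : ∀ x, 0 ≤ f x ∧ f x < 1 := fun x => ⟨Int.fract_nonneg _, Int.fract_lt_one _⟩
  refine ⟨range f, ?_, ?_⟩
  · rintro _ ⟨x, rfl⟩
    exact ⟨(hf3 x).1, (hf3 x).2.le⟩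
  intro hV
  let Q : Set ℚ := {q | |q| ≤ 1}
  let T : Q → Set ℝ := fun q => (fun x => x + (-(q.1 : ℝ))) ⁻¹' (range f)
  have hT : ∀ q, NullMeasurableSet (T q) volume := fun q =>
    hV.preimage (measurePreserving_add_right volume _).quasiMeasurePreserving
  have hTv : ∀ q, volume (T q) = volume (range f) := fun q =>
    measure_preimage_add_right volume _ _
  have hdisj : Pairwise (AEDisjoint volume on T) := by
    intro p q hpq
    apply Disjoint.aedisjoint
    rw [Set.disjoint_left]
    rintro z ⟨x, hx⟩ ⟨y, hy⟩
    apply hpq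
    simp only at hx hy
    obtain ⟨a, ha⟩ := hf1 x
    obtain ⟨b, hb⟩ := hf1 y
    have h := hf2 x y ⟨a - p.1 - b + q.1, by push_cast; linarith⟩
    apply Subtype.ext
    have : (p.1 : ℝ) = q.1 := by linarith
    exact_mod_cast this
  have hsum : volume (⋃ q, T q) = ∑' _ : Q, volume (range f) := by
    rw [measure_iUnion₀ hdisj hT]
    simp only [hTv]
  have hsub : (⋃ q, T q) ⊆ Icc (-1) 2 := by
    intro z hz
    rw [mem_iUnion] at hz
    obtain ⟨⟨q, hq⟩, x, hx⟩ := hz
    simp only at hx
    have h3 := hf3 x
    have hq' : |(q : ℝ)| ≤ 1 := by exact_mod_cast hq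
    rw [abs_le] at hq'
    constructor <;> linarith
  have hsup : Ico (0:ℝ) 1 ⊆ ⋃ q, T q := by
    intro z hz
    obtain ⟨q, hq⟩ := hf1 z
    have h3 := hf3 z
    rw [mem_iUnion]
    refine ⟨⟨q, ?_⟩, z, ?_⟩
    · have : |(q : ℝ)| ≤ 1 := by
        rw [← hq, abs_le]
        constructor <;> linarith [hz.1, hz.2]
      exact_mod_cast this
    · simp only
      linarith
  have hQinf : Infinite Q := by
    refine Infinite.of_injective (fun n : ℕ => (⟨1 / ((n : ℚ) + 1), ?_⟩ : Q)) ?_
    · simp only [Q, mem_ofPred_eq]
      rw [abs_of_nonneg (by positivity)]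
      rw [div_le_one (by positivity)]
      linarith [(Nat.cast_nonneg n : (0 : ℚ) ≤ n)]
    · intro m n h
      simp only [Subtype.mk.injEq] at h
      have : (m : ℚ) + 1 = n + 1 := by
        have h1 : ((m : ℚ) + 1) ≠ 0 := by positivity
        have h2 : ((n : ℚ) + 1) ≠ 0 := by positivity
        field_simp at h
        linarith
      exact_mod_cast (add_right_cancel this)
  by_cases h0 : volume (range f) = 0
  · have h1 : volume (⋃ q, T q) = 0 := by rw [hsum, h0]; simp
    have h2 : volume (Ico (0:ℝ) 1) ≤ 0 := h1 ▸ measure_mono hsup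
    simp at h2
  · have h1 : volume (⋃ q, T q) = ⊤ := by
      rw [hsum]
      exact ENNReal.tsum_const_eq_top_of_ne_zero h0
    have h2 : volume (⋃ q, T q) ≤ volume (Icc (-1:ℝ) 2) := measure_mono hsub
    rw [h1] at h2
    simp at h2

abbrev I := unitInterval

/-- The tent function of height `1` and half-width `δ` centred at `t`. -/
noncomputable def tent (δ : ℝ) (t : I) : C(I, ℝ) :=
  ⟨fun s => max 0 (1 - dist s t / δ), by fun_prop⟩

theorem finite_bad (c : I → ℝ) (hc : ∀ t, |c t| ≤ 1) (φ : StrongDual ℝ C(I, ℝ)) (a : ℝ)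
    (ha : a < ‖φ‖) :
    {t : I | ¬ ∃ x : C(I, ℝ), ‖x‖ ≤ 1 ∧ x t = c t ∧ a < φ x}.Finite := by
  classical
  by_contra hinf
  have hinf : {t : I | ¬ ∃ x : C(I, ℝ), ‖x‖ ≤ 1 ∧ x t = c t ∧ a < φ x}.Infinite := hinf
  obtain ⟨x0, hx0, hx0a⟩ : ∃ x : C(I, ℝ), ‖x‖ ≤ 1 ∧ a < φ x := by
    rcases lt_or_ge a 0 with h | h
    · exact ⟨0, by simp, by simpa using h⟩
    · obtain ⟨x, hx, hax⟩ := φ.exists_lt_apply_of_lt_opNorm ha
      rcases le_total 0 (φ x) with h' | h'
      · exact ⟨x, hx.le, by rwa [Real.norm_of_nonneg h'] at hax⟩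
      · exact ⟨-x, by simpa using hx.le, by rw [map_neg]; rwa [Real.norm_of_nonpos h'] at hax⟩
  set η := φ x0 - a with hη
  have hηpos : 0 < η := by rw [hη]; linarith
  obtain ⟨N, hN⟩ := exists_nat_gt ((φ x0 + ‖φ‖) / η)
  obtain ⟨T, hTsub, hTcard⟩ := hinf.exists_subset_card_eq N
  obtain ⟨δ, hδ, hδT⟩ : ∃ δ : ℝ, 0 < δ ∧ ∀ s ∈ T, ∀ t ∈ T, s ≠ t → 2 * δ ≤ dist s t := by
    rcases (T : Set I).subsingleton_or_nontrivial with hT | hT
    · refine ⟨1, one_pos, fun s hs t ht hst => absurd (hT hs ht) hst⟩
    · refine ⟨(T : Set I).infsep / 2, ?_, fun s hs t ht hst => ?_⟩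
      · have := (Set.Finite.infsep_pos_iff_nontrivial (Finset.finite_toSet T)).2 hT
        linarith
      · have := Set.infsep_le_dist_of_mem (Finset.mem_coe.2 hs) (Finset.mem_coe.2 ht) hst
        linarith
  have htent0 : ∀ t s : I, 0 ≤ tent δ t s := fun t s => le_max_left _ _
  have htent1 : ∀ t s : I, tent δ t s ≤ 1 := fun t s => by
    apply max_le zero_le_one
    have : 0 ≤ dist s t / δ := by positivity
    linarith
  have htents : ∀ t : I, tent δ t t = 1 := fun t => by simp [tent]
  have htentz : ∀ t s : I, δ ≤ dist s t → tent δ t s = 0 := fun t s h => by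
    apply max_eq_left
    have : 1 ≤ dist s t / δ := by rwa [one_le_div hδ]
    linarith
  -- the single modifications
  have hx0' : ∀ s, |x0 s| ≤ 1 := fun s => by
    have := x0.norm_coe_le_norm s
    rw [Real.norm_eq_abs] at this
    linarith
  let g : I → C(I, ℝ) := fun t => tent δ t * (ContinuousMap.const I (c t) - x0)
  have hg : ∀ t s, g t s = tent δ t s * (c t - x0 s) := fun t s => rfl
  have key : ∀ t ∈ T, φ (g t) ≤ - η := by
    intro t ht
    have hbad := hTsub ht
    by_contra hcon
    push Not at hcon
    apply hbad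
    refine ⟨x0 + g t, ?_, ?_, ?_⟩
    · rw [ContinuousMap.norm_le _ zero_le_one]
      intro s
      rw [ContinuousMap.add_apply, hg, Real.norm_eq_abs, abs_le]
      have h1 := abs_le.1 (hc t)
      have h2 := abs_le.1 (hx0' s)
      have h3 := htent0 t s
      have h4 := htent1 t s
      constructor <;> nlinarith
    · rw [ContinuousMap.add_apply, hg, htents]
      ring
    · rw [map_add]
      linarith
  -- the simultaneous modification
  have hnorm : ‖x0 + ∑ t ∈ T, g t‖ ≤ 1 := by
    rw [ContinuousMap.norm_le _ zero_le_one]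
    intro s
    rw [ContinuousMap.add_apply, ContinuousMap.sum_apply, Real.norm_eq_abs]
    by_cases h : ∃ t ∈ T, dist s t < δ
    · obtain ⟨t, ht, hst⟩ := h
      rw [Finset.sum_eq_single_of_mem t ht, hg, abs_le]
      · have h1 := abs_le.1 (hc t)
        have h2 := abs_le.1 (hx0' s)
        have h3 := htent0 t s
        have h4 := htent1 t s
        constructor <;> nlinarith
      · intro u hu hut
        rw [hg, htentz, zero_mul]
        have := hδT u hu t ht hut
        have h' := dist_triangle u s t
        rw [dist_comm u s] at h'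
        linarith
    · push Not at h
      rw [Finset.sum_eq_zero, add_zero]
      · exact hx0' s
      · intro u hu
        rw [hg, htentz _ _ (h u hu), zero_mul]
  have h1 : -‖φ‖ ≤ φ (x0 + ∑ t ∈ T, g t) := by
    have h2 := φ.le_opNorm (x0 + ∑ t ∈ T, g t)
    rw [Real.norm_eq_abs] at h2
    have h3 := neg_abs_le (φ (x0 + ∑ t ∈ T, g t))
    nlinarith [norm_nonneg φ]
  have h2 : φ (x0 + ∑ t ∈ T, g t) ≤ φ x0 - N * η := by
    rw [map_add, map_sum]
    have : ∑ t ∈ T, φ (g t) ≤ ∑ t ∈ T, (-η) := Finset.sum_le_sum key
    rw [Finset.sum_const, hTcard, nsmul_eq_mul] at this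
    linarith
  rw [div_lt_iff₀ hηpos] at hN
  linarith

/-- The values of the multi-function of the counterexample. -/
def value (c : I → ℝ) (t : I) : Set C(I, ℝ) := {x | ‖x‖ ≤ 1 ∧ x t = c t}

theorem nonempty_value {c : I → ℝ} (hc : ∀ t, |c t| ≤ 1) (t : I) : (value c t).Nonempty := by
  refine ⟨ContinuousMap.const I (c t), ?_, rfl⟩
  rw [ContinuousMap.norm_le _ zero_le_one]
  exact fun _ => hc t

theorem convex_value (c : I → ℝ) (t : I) : Convex ℝ (value c t) := by
  intro x hx y hy a b ha hb hab
  refine ⟨?_, ?_⟩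
  · calc ‖a • x + b • y‖ ≤ ‖a • x‖ + ‖b • y‖ := norm_add_le _ _
      _ = a * ‖x‖ + b * ‖y‖ := by
          rw [norm_smul, norm_smul, Real.norm_of_nonneg ha, Real.norm_of_nonneg hb]
      _ ≤ a * 1 + b * 1 := by
          have := hx.1
          have := hy.1
          gcongr
      _ = 1 := by linarith
  · have h1 := hx.2
    have h2 := hy.2
    rw [ContinuousMap.add_apply, ContinuousMap.smul_apply, ContinuousMap.smul_apply, h1, h2,
      smul_eq_mul, smul_eq_mul, ← add_mul, hab, one_mul]

theorem isClosed_value (c : I → ℝ) (t : I) : IsClosed (value c t) := by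
  apply IsClosed.inter
  · exact isClosed_le continuous_norm continuous_const
  · exact isClosed_eq (ContinuousEvalConst.continuous_eval_const t) continuous_const

theorem value_subset (c : I → ℝ) (t : I) : value c t ⊆ Metric.closedBall 0 1 := by
  intro x hx
  rw [mem_closedBall_zero_iff]
  exact hx.1

/-- For every open half-space `H`, the set of the `t` for which `value c t` meets `H` is finite or
has finite complement; in fact it is empty or has finite complement. -/
theorem finite_or_cofinite (c : I → ℝ) (hc : ∀ t, |c t| ≤ 1) (φ : StrongDual ℝ C(I, ℝ)) (a : ℝ) :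
    {t : I | (value c t ∩ {x | a < φ x}).Nonempty} = ∅ ∨
      {t : I | (value c t ∩ {x | a < φ x}).Nonempty}ᶜ.Finite := by
  rcases lt_or_ge a ‖φ‖ with ha | ha
  · right
    refine (finite_bad c hc φ a ha).subset ?_
    intro t ht
    rw [mem_compl_iff, mem_ofPred_eq] at ht
    rw [mem_ofPred_eq]
    rintro ⟨x, hx1, hx2, hx3⟩
    exact ht ⟨x, ⟨hx1, hx2⟩, hx3⟩
  · left
    rw [Set.eq_empty_iff_forall_notMem]
    rintro t ⟨x, ⟨hx1, hx2⟩, hx3⟩
    have h1 := φ.le_opNorm x
    have h2 := le_abs_self (φ x)
    rw [Real.norm_eq_abs] at h1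
    have h3 : ‖φ‖ * ‖x‖ ≤ ‖φ‖ := by nlinarith [norm_nonneg φ, norm_nonneg x]
    rw [mem_ofPred_eq] at hx3
    linarith

/-- If `f : Ω → C[0,1]` is scalarly measurable and `p : Ω → [0,1]` is measurable, then
`t ↦ (f t) (p t)` is measurable. -/
theorem measurable_diag {Ω : Type*} [MeasurableSpace Ω] {p : Ω → I} (hp : Measurable p)
    {f : Ω → C(I, ℝ)} (hf : ScalarlyMeasurableFunction f) : Measurable fun t => f t (p t) := by
  let u : I → Ω → ℝ := fun s t => f t s
  have hu : Measurable (Function.uncurry u) := by
    apply measurable_uncurry_of_continuous_of_measurable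
    · intro t
      exact (f t).continuous
    · intro s
      exact hf (ContinuousMap.evalCLM ℝ s)
  exact hu.comp (hp.prodMk measurable_id)

/-- **Negative answer to Q1 of MP_93dabc_an, even for bounded values in a separable space.**
On the complete probability space `[0,1]` (Lebesgue measurable sets, Lebesgue measure) there is a
scalarly measurable multi-function `F` with values in the separable Banach space `C[0,1]`, all of
whose values are nonempty, convex, norm-closed and contained in the closed unit ball, such that no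
selector of `F` is scalarly measurable. -/
theorem result :
    IsProbabilityMeasure (volume : Measure unitInterval).completion ∧
    (volume : Measure unitInterval).completion.IsComplete ∧
    CompleteSpace C(unitInterval, ℝ) ∧
    TopologicalSpace.SeparableSpace C(unitInterval, ℝ) ∧
    ∃ F : NullMeasurableSpace unitInterval volume → Set C(unitInterval, ℝ),
      (∀ t, (F t).Nonempty) ∧
      (∀ t, Convex ℝ (F t)) ∧
      (∀ t, IsClosed (F t)) ∧
      (∀ t, F t ⊆ Metric.closedBall 0 1) ∧
      ScalarlyMeasurableMultiFunction F ∧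
      ¬ ∃ f : NullMeasurableSpace unitInterval volume → C(unitInterval, ℝ),
          (∀ t, f t ∈ F t) ∧ ScalarlyMeasurableFunction f := by
  classical
  refine ⟨⟨by rw [Measure.coe_completion]; exact measure_univ⟩, inferInstance, inferInstance,
    inferInstance, ?_⟩
  obtain ⟨V, hV1, hV2⟩ := exists_not_nullMeasurableSet
  let A : Set I := Subtype.val ⁻¹' V
  let c : I → ℝ := A.indicator 1
  have hc : ∀ t, |c t| ≤ 1 := by
    intro t
    by_cases h : t ∈ A
    · simp [c, h]
    · simp [c, h]
  have hA : ¬ NullMeasurableSet A volume := by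
    intro h
    apply hV2
    have h1 : NullMeasurableSet (Subtype.val '' A) volume :=
      Measure.NullMeasurableSet.subtype_coe measurableSet_Icc.nullMeasurableSet h
    have h2 : (Subtype.val '' A : Set ℝ) = V := by
      rw [Subtype.image_preimage_coe]
      exact Set.inter_eq_right.2 hV1
    rwa [h2] at h1
  refine ⟨fun t => value c t, nonempty_value hc, convex_value c, isClosed_value c, value_subset c,
    ?_, ?_⟩
  · intro φ a _
    rcases finite_or_cofinite c hc φ a with h | h
    · rw [show {t : NullMeasurableSpace unitInterval volume | (value c t ∩ {x | a < φ x}).Nonempty}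
        = ∅ from h]
      exact MeasurableSet.empty
    · have h' : NullMeasurableSet
          {t : unitInterval | (value c t ∩ {x | a < φ x}).Nonempty} volume := by
        exact NullMeasurableSet.compl_iff.1 h.measurableSet.nullMeasurableSet
      exact h'
  · rintro ⟨f, hfF, hf⟩
    apply hA
    let p : NullMeasurableSpace unitInterval volume → unitInterval := fun t => t
    have hp : Measurable p := fun s hs => MeasurableSet.nullMeasurableSet hs
    have h1 := measurable_diag hp hf
    have h2 : (fun t : NullMeasurableSpace unitInterval volume => (f t) (p t))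
        = fun t => c t := by
      funext t
      exact (hfF t).2
    rw [h2] at h1
    have h3 := h1 (measurableSet_singleton (1:ℝ))
    have h4 : c ⁻¹' {1} = A := by
      ext t
      by_cases h : t ∈ A
      · simp [c, h]
      · simp [c, h]
    rw [← h4]
    exact h3

end Pool.Agent.Results.MP_93dabc_an.BoundedClosedConvexNoSelector
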