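import Mathlib
import Pool.Agent.Results.MP_93dabc_an.BoundedClosedConvexNoSelector

/-!
# A scalarly measurable multi-function whose values are lines of the plane, without measurable
selector

Let `Ω = [0,1]` with the Lebesgue sigma-algebra and Lebesgue measure, `X` the Euclidean plane and
`A` a subset of `[0,1]` that is not Lebesgue measurable. The value `F t` is the line
`{x : x 0 + t * x 1 = 1_A t}`. A nonzero functional `φ` is unbounded above on `F t` unless its
kernel is parallel to `F t`, which happens for at most one `t`. Hence `F` is scalarly measurable,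
and a scalarly measurable selector `f` would make `t ↦ f t 0 + t * f t 1 = 1_A t` measurable.
-/

open MeasureTheory Set Function

namespace Pool.Agent.Results.MP_93dabc_an.PlaneLinesNoSelector

open Pool.Agent.Results.MP_93dabc_an.BoundedClosedConvexNoSelector

/-- The line `{x | x 0 + t * x 1 = c}` of the Euclidean plane. -/
def line (c t : ℝ) : Set (EuclideanSpace ℝ (Fin 2)) := {x | x 0 + t * x 1 = c}

/-- The functional `x ↦ x 0 + t * x 1`. -/
noncomputable def lineFun (t : ℝ) : StrongDual ℝ (EuclideanSpace ℝ (Fin 2)) :=
  EuclideanSpace.proj 0 + t • EuclideanSpace.proj 1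

theorem lineFun_apply (t : ℝ) (x : EuclideanSpace ℝ (Fin 2)) : lineFun t x = x 0 + t * x 1 := rfl

theorem line_eq (c t : ℝ) : line c t = {x | lineFun t x = c} := rfl

theorem nonempty_line (c t : ℝ) : (line c t).Nonempty := by
  refine ⟨!₂[c, 0], ?_⟩
  simp [line]

theorem convex_line (c t : ℝ) : Convex ℝ (line c t) := by
  rw [line_eq]
  exact convex_hyperplane (lineFun t).toLinearMap.isLinear c

theorem isClosed_line (c t : ℝ) : IsClosed (line c t) := by
  rw [line_eq]
  exact isClosed_eq (lineFun t).continuous continuous_const

theorem functional_apply (φ : StrongDual ℝ (EuclideanSpace ℝ (Fin 2)))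
    (x : EuclideanSpace ℝ (Fin 2)) :
    φ x = φ (EuclideanSpace.single 0 1) * x 0 + φ (EuclideanSpace.single 1 1) * x 1 := by
  have h : x = x 0 • EuclideanSpace.single (0 : Fin 2) (1 : ℝ)
      + x 1 • EuclideanSpace.single (1 : Fin 2) (1 : ℝ) := by
    ext i
    fin_cases i <;> simp
  conv_lhs => rw [h]
  rw [map_add, map_smul, map_smul, smul_eq_mul, smul_eq_mul]
  ring

theorem meets_line (φ : StrongDual ℝ (EuclideanSpace ℝ (Fin 2))) (a c t : ℝ)
    (h : φ (EuclideanSpace.single 1 1) ≠ t * φ (EuclideanSpace.single 0 1)) :
    (line c t ∩ {x | a < φ x}).Nonempty := by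
  set α := φ (EuclideanSpace.single 0 1) with hα
  set β := φ (EuclideanSpace.single 1 1) with hβ
  have hne : β - t * α ≠ 0 := sub_ne_zero.2 h
  let s : ℝ := (a + 1 - α * c) / (β - t * α)
  refine ⟨!₂[c - t * s, s], ?_, ?_⟩
  · simp [line]
  · rw [mem_ofPred_eq, functional_apply, ← hα, ← hβ]
    have hs : s * (β - t * α) = a + 1 - α * c := div_mul_cancel₀ _ hne
    have : (!₂[c - t * s, s] : EuclideanSpace ℝ (Fin 2)) 0 = c - t * s := rfl
    rw [this]
    have : (!₂[c - t * s, s] : EuclideanSpace ℝ (Fin 2)) 1 = s := rfl
    rw [this]
    nlinarith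

/-- **Negative answer to Q1 of MP_93dabc_an in the Euclidean plane.** On the complete probability
space `[0,1]` (Lebesgue measurable sets, Lebesgue measure) there is a scalarly measurable
multi-function with nonempty convex closed values in the Euclidean plane, none of whose selectors
is scalarly measurable. -/
theorem result :
    IsProbabilityMeasure (volume : Measure unitInterval).completion ∧
    (volume : Measure unitInterval).completion.IsComplete ∧
    ∃ F : NullMeasurableSpace unitInterval volume → Set (EuclideanSpace ℝ (Fin 2)),
      (∀ t, (F t).Nonempty) ∧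
      (∀ t, Convex ℝ (F t)) ∧
      (∀ t, IsClosed (F t)) ∧
      ScalarlyMeasurableMultiFunction F ∧
      ¬ ∃ f : NullMeasurableSpace unitInterval volume → EuclideanSpace ℝ (Fin 2),
          (∀ t, f t ∈ F t) ∧ ScalarlyMeasurableFunction f := by
  classical
  refine ⟨⟨by rw [Measure.coe_completion]; exact measure_univ⟩, inferInstance, ?_⟩
  obtain ⟨V, hV1, hV2⟩ := exists_not_nullMeasurableSet
  let A : Set I := Subtype.val ⁻¹' V
  let c : I → ℝ := A.indicator 1
  have hA : ¬ NullMeasurableSet A volume := by
    intro h
    apply hV2
    have h1 : NullMeasurableSet (Subtype.val '' A) volume :=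
      Measure.NullMeasurableSet.subtype_coe measurableSet_Icc.nullMeasurableSet h
    have h2 : (Subtype.val '' A : Set ℝ) = V := by
      rw [Subtype.image_preimage_coe]
      exact Set.inter_eq_right.2 hV1
    rwa [h2] at h1
  refine ⟨fun t => line (c t) (show I from t).val, fun t => nonempty_line _ _, fun t => convex_line _ _,
    fun t => isClosed_line _ _, ?_, ?_⟩
  · intro φ a hφ
    set α := φ (EuclideanSpace.single 0 1) with hα
    set β := φ (EuclideanSpace.single 1 1) with hβ
    have h : {t : I | (line (c t) t ∩ {x | a < φ x}).Nonempty}ᶜ.Finite := by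
      refine Set.Subsingleton.finite ?_
      intro s hs t ht
      rw [mem_compl_iff, mem_ofPred_eq] at hs ht
      have h1 : β = s * α := by
        by_contra h
        exact hs (meets_line φ a _ _ h)
      have h2 : β = t * α := by
        by_contra h
        exact ht (meets_line φ a _ _ h)
      have hα0 : α ≠ 0 := by
        intro h0
        rw [h0, mul_zero] at h1
        apply hφ
        ext x
        rw [functional_apply, ← hα, ← hβ, h0, h1]
        simp
      apply Subtype.ext
      exact mul_right_cancel₀ hα0 (h1.symm.trans h2)
    have h' : NullMeasurableSet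
        {t : unitInterval | (line (c t) t ∩ {x | a < φ x}).Nonempty} volume :=
      NullMeasurableSet.compl_iff.1 h.measurableSet.nullMeasurableSet
    exact h'
  · rintro ⟨f, hfF, hf⟩
    apply hA
    let p : NullMeasurableSpace unitInterval volume → unitInterval := fun t => t
    have hp : Measurable p := fun s hs => MeasurableSet.nullMeasurableSet hs
    have hp' : Measurable fun t => (p t : ℝ) := measurable_subtype_coe.comp hp
    have h1 : Measurable fun t => f t 0 + (p t : ℝ) * f t 1 :=
      (hf (EuclideanSpace.proj 0)).add (hp'.mul (hf (EuclideanSpace.proj 1)))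
    have h2 : (fun t : NullMeasurableSpace unitInterval volume => f t 0 + (p t : ℝ) * f t 1)
        = fun t => c t := by
      funext t
      exact hfF t
    rw [h2] at h1
    have h3 := h1 (measurableSet_singleton (1:ℝ))
    have h4 : c ⁻¹' {1} = A := by
      ext t
      by_cases h : t ∈ A
      · simp [c, h]
      · simp [c, h]
    rw [← h4]
    exact h3

end Pool.Agent.Results.MP_93dabc_an.PlaneLinesNoSelector
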